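import Pool.Agent.N718.DC.Stm2
import Pool.Agent.U424.DQ.Stm

/-!
# Project DQ, part AMTG: reindexing
-/

set_option autoImplicit false

namespace Pool.Agent.U571.DQ

open Finset Pool.Agent.N718.DC Pool.Agent.U424.DQ

theorem amtg_ (h : S_AMT) : S_AMTG := by
  classical
  intro ι _ _ N φ e
  obtain ⟨C, hC0, hC⟩ := h N (fun k => e (φ.symm k))
  refine ⟨C, hC0, ?_⟩
  intro W M hW hM h2 hp1 hp2 a₀ a₁ α β hαβ γ g s ε hs hε hg hγ
  obtain ⟨H₀, hH₀⟩ := hC W M hW hM h2 hp1 hp2 a₀ a₁ α β hαβ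
    (fun k => γ (φ.symm k)) (fun k => g (φ.symm k))
    (fun k => s (φ.symm k))
    (fun k k' => ε (φ.symm k) (φ.symm k'))
    (fun k => hs _) (fun k k' => hε _ _) (fun k => hg _) (fun k => hγ _)
  refine ⟨H₀, fun H hH => ?_⟩
  have h1 := hH₀ H hH
  have e1 : nc (fun k : Fin N => e (φ.symm k)) = ncI e := by
    unfold nc ncI
    exact Equiv.sum_comp φ.symm (fun k => e k + 2)
  rw [e1] at h1
  refine le_trans ?_ h1
  rw [Nat.cast_le]
  refine Finset.card_le_card_of_injOn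
    (fun (c : (k : ι) → Fin (e k + 2) → ℤ) (k : Fin N) => c (φ.symm k)) ?_ ?_
  · intro c hc
    rw [Finset.mem_coe, Finset.mem_filter] at hc ⊢
    obtain ⟨g1, g2, g3, g4⟩ := hc
    refine ⟨?_, fun k j => g2 _ j, fun k z hz1 hz2 => g3 _ z hz1 hz2, ?_⟩
    · unfold BXI at g1
      unfold BX
      rw [Fintype.mem_piFinset] at g1 ⊢
      exact fun k => g1 _
    · rintro ⟨x, y, hx, hx0, hy0, hxy1, hxy2, P, hP, hJ⟩
      refine g4 ⟨x, y, hx, hx0, hy0, hxy1, hxy2, fun k => P (φ k), ?_, ?_⟩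
      · intro k
        obtain ⟨k', rfl⟩ := φ.symm.surjective k
        have e2 : (fun k => P (φ k)) (φ.symm k') = P k' :=
          congrArg P (Equiv.apply_symm_apply _ _)
        rw [e2]
        exact hP k'
      · intro k k' hl
        have h3 := hJ _ _ hl
        rw [h3]
        simp only [Equiv.symm_apply_apply]
  · intro c hc c' hc' hcc
    funext k
    obtain ⟨k', rfl⟩ := φ.symm.surjective k
    exact congrFun hcc k'

end Pool.Agent.U571.DQ
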